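import Pool.Agent.H32.RQ.Targets

/-!
PNB: the pairs which are bad at `p` are rare
-/

set_option autoImplicit false

open Finset Pool.Agent.H32.RQ

namespace Pool.Agent.H36.RQ

theorem pnb_dq {R : Type} [CommRing R] {s : ℕ} (f : Mon s → R) (a : R) (x : Fin s → R)
    (j : Fin s) : dq f (fun i => a * x i) j = a * dq f x j := by
  unfold dq
  rw [Finset.mul_sum]
  refine Finset.sum_congr rfl fun p _ => ?_
  split_ifs <;> ring

theorem pnb_qf {R : Type} [CommRing R] {s : ℕ} (f : Mon s → R) (a : R) (x : Fin s → R) :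
    qf f (fun i => a * x i) = a ^ 2 * qf f x := by
  unfold qf
  rw [Finset.mul_sum]
  refine Finset.sum_congr rfl fun p _ => ?_
  ring

theorem pnb_jm {R : Type} [CommRing R] {s : ℕ} (F : Fin 2 → Mon s → R) (a : R) (x : Fin s → R)
    (j l : Fin s) : jm F (fun i => a * x i) j l = a ^ 2 * jm F x j l := by
  unfold jm
  rw [pnb_dq, pnb_dq, pnb_dq, pnb_dq]
  ring

theorem pnb_qfc (M s : ℕ) (c : Fin 2 → Mon s → ℤ) (x : Fin s → ℤ) (i : Fin 2) :
    qf (cm (ZMod M) c i) (fun j => (x j : ZMod M)) = ((qf (c i) x : ℤ) : ZMod M) := by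
  unfold qf cm
  push_cast
  rfl

theorem pnb_dqc (M s : ℕ) (c : Fin 2 → Mon s → ℤ) (x : Fin s → ℤ) (i : Fin 2) (j : Fin s) :
    dq (cm (ZMod M) c i) (fun j => (x j : ZMod M)) j = ((dq (c i) x j : ℤ) : ZMod M) := by
  unfold dq cm
  rw [Int.cast_sum]
  refine Finset.sum_congr rfl fun p _ => ?_
  split_ifs <;> push_cast <;> ring

theorem pnb_jmc (M s : ℕ) (c : Fin 2 → Mon s → ℤ) (x : Fin s → ℤ) (j l : Fin s) :
    jm (cm (ZMod M) c) (fun j => (x j : ZMod M)) j l = ((jm c x j l : ℤ) : ZMod M) := by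
  unfold jm
  rw [pnb_dqc, pnb_dqc, pnb_dqc, pnb_dqc]
  push_cast
  rfl

theorem pnb_md (s : ℕ) : s ≤ md s := by
  have h : Fintype.card (Fin s) ≤ Fintype.card (Mon s) :=
    Fintype.card_le_of_injective (fun i => (⟨(i, i), le_rfl⟩ : Mon s)) fun i j h => by
      have h2 := congrArg (fun q : Mon s => q.1.1) h
      exact h2
  rwa [Fintype.card_fin] at h

theorem pf_PNB (hPFX : T_PFX) (hTRB : T_TRB) : T_PNB := by
  classical
  intro s p t A hs hp hM
  have hne : NeZero (p ^ t) := ⟨(pow_pos hp.pos t).ne'⟩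
  obtain ⟨E, hE⟩ : ∃ E : Finset (Fin 2 → Mon s → ZMod (p ^ t)), E = Finset.univ.filter
      (fun F => ∃ (i₀ : Fin s) (x : Fin s → ZMod (p ^ t)), x i₀ = 1 ∧
        (∀ i, qf (F i) x = 0) ∧ ∀ j l, jm F x j l = 0) := ⟨_, rfl⟩
  have h1 : ∀ c : Fin 2 → Mon s → ℤ, NP t p c → cm (ZMod (p ^ t)) c ∈ E := by
    rintro c ⟨x, ⟨i₀, hi⟩, hq, hj⟩
    have hcast : ∀ z : ℤ, (p : ℤ) ^ t ∣ z → (z : ZMod (p ^ t)) = 0 := by
      intro z hz
      rw [ZMod.intCast_zmod_eq_zero_iff_dvd]
      push_cast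
      exact hz
    have hu : IsUnit ((x i₀ : ℤ) : ZMod (p ^ t)) := by
      have hcop : IsCoprime (x i₀) ((p : ℤ) ^ t) := by
        have h2 : Prime (p : ℤ) := Nat.prime_iff_prime_int.1 hp
        exact (IsCoprime.pow_left ((h2.coprime_iff_not_dvd).2 hi)).symm
      obtain ⟨a, b, hab⟩ := hcop
      have h3 : (a : ZMod (p ^ t)) * ((x i₀ : ℤ) : ZMod (p ^ t)) = 1 := by
        have h4 := congrArg (Int.cast : ℤ → ZMod (p ^ t)) hab
        push_cast at h4
        have h5 : (p : ZMod (p ^ t)) ^ t = 0 := by exact_mod_cast ZMod.natCast_self (p ^ t)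
        rw [h5, mul_zero, add_zero] at h4
        exact h4
      exact IsUnit.of_mul_eq_one _ ((mul_comm _ _).trans h3)
    obtain ⟨u, hu'⟩ := hu
    rw [hE, Finset.mem_filter]
    refine ⟨Finset.mem_univ _, i₀, fun i => (u⁻¹ : (ZMod (p ^ t))ˣ) * ((x i : ℤ) : ZMod (p ^ t)),
      ?_, ?_, ?_⟩
    · show ((u⁻¹ : (ZMod (p ^ t))ˣ) : ZMod (p ^ t)) * ((x i₀ : ℤ) : ZMod (p ^ t)) = 1
      rw [← hu']
      exact u.inv_mul
    · intro i
      rw [pnb_qf, pnb_qfc, hcast _ (hq i), mul_zero]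
    · intro j l
      rw [pnb_jm, pnb_jmc, hcast _ (hj j l), mul_zero]
  obtain ⟨X, hX⟩ : ∃ X : Fin s → Finset (Fin s → ZMod (p ^ t)), X = fun i₀ =>
      Fintype.piFinset (fun j => if j = i₀ then {1} else Finset.univ) := ⟨_, rfl⟩
  have hXc : ∀ i₀, (X i₀).card = (p ^ t) ^ (s - 1) := by
    intro i₀
    rw [hX]
    dsimp only
    rw [Fintype.card_piFinset]
    have e : ∀ j : Fin s, (if j = i₀ then ({1} : Finset (ZMod (p ^ t))) else
        Finset.univ).card = if j = i₀ then 1 else p ^ t := by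
      intro j
      split_ifs
      · rw [Finset.card_singleton]
      · rw [Finset.card_univ, ZMod.card]
    rw [Finset.prod_congr rfl fun j _ => e j, Finset.prod_ite, Finset.prod_const_one, one_mul,
      Finset.prod_const, Finset.filter_ne', Finset.card_erase_of_mem (Finset.mem_univ _),
      Finset.card_univ, Fintype.card_fin]
  have h2 : E.card ≤ s * ((p ^ t) ^ (s - 1) * (2 * (p ^ t) ^ (2 * md s - s))) := by
    have hsub : E ⊆ Finset.univ.biUnion fun i₀ : Fin s => (X i₀).biUnion fun x =>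
        if x i₀ = 1 then Finset.univ.filter fun F : Fin 2 → Mon s → ZMod (p ^ t) =>
          (∀ i, qf (F i) x = 0) ∧ ∀ j l, jm F x j l = 0 else ∅ := by
      intro F hF
      rw [hE, Finset.mem_filter] at hF
      obtain ⟨-, i₀, x, h3, h4⟩ := hF
      rw [Finset.mem_biUnion]
      refine ⟨i₀, Finset.mem_univ _, ?_⟩
      rw [Finset.mem_biUnion]
      refine ⟨x, ?_, ?_⟩
      · rw [hX]
        dsimp only
        rw [Fintype.mem_piFinset]
        intro j
        split_ifs with h5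
        · rw [h5, h3, Finset.mem_singleton]
        · exact Finset.mem_univ _
      · rw [if_pos h3, Finset.mem_filter]
        exact ⟨Finset.mem_univ _, h4⟩
    refine (Finset.card_le_card hsub).trans (Finset.card_biUnion_le.trans ?_)
    refine (Finset.sum_le_card_nsmul _ _ ((p ^ t) ^ (s - 1) * (2 * (p ^ t) ^ (2 * md s - s)))
      fun i₀ _ => ?_).trans (le_of_eq ?_)
    · refine Finset.card_biUnion_le.trans ?_
      refine (Finset.sum_le_card_nsmul _ _ (2 * (p ^ t) ^ (2 * md s - s)) fun x _ => ?_).trans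
        (le_of_eq ?_)
      · split_ifs with h3
        · refine le_trans (Finset.card_le_card ?_) (hPFX s p t i₀ x hs hp h3)
          intro F hF
          rw [Finset.mem_filter] at hF ⊢
          exact hF
        · rw [Finset.card_empty]
          exact Nat.zero_le _
      · rw [smul_eq_mul, hXc]
    · rw [smul_eq_mul, Finset.card_univ, Fintype.card_fin]
  have h3 : E.card * p ^ t ≤ 2 * s * (p ^ t) ^ (2 * md s) := by
    have h4 := pnb_md s
    have e : (p ^ t) ^ (2 * md s) = (p ^ t) ^ (s - 1) * (p ^ t) ^ (2 * md s - s) * p ^ t := by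
      rw [← pow_add, ← pow_succ]
      congr 1
      omega
    calc E.card * p ^ t ≤ s * ((p ^ t) ^ (s - 1) * (2 * (p ^ t) ^ (2 * md s - s))) * p ^ t :=
          Nat.mul_le_mul_right _ h2
      _ = 2 * s * (p ^ t) ^ (2 * md s) := by
          rw [e]
          ring
  have h4 := hTRB s A (p ^ t) E hM
  have h5 : ((bx s A).filter fun c => NP t p c).card ≤
      ((bx s A).filter fun c => cm (ZMod (p ^ t)) c ∈ E).card := by
    refine Finset.card_le_card ?_
    intro c hc
    rw [Finset.mem_filter] at hc ⊢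
    exact ⟨hc.1, h1 c hc.2⟩
  have hpos : 0 < (p ^ t) ^ (2 * md s) := pow_pos (pow_pos hp.pos t) _
  refine Nat.le_of_mul_le_mul_right ?_ hpos
  calc ((bx s A).filter fun c => NP t p c).card * p ^ t * (p ^ t) ^ (2 * md s)
      ≤ ((bx s A).filter fun c => cm (ZMod (p ^ t)) c ∈ E).card * p ^ t *
        (p ^ t) ^ (2 * md s) := Nat.mul_le_mul_right _ (Nat.mul_le_mul_right _ h5)
    _ = ((bx s A).filter fun c => cm (ZMod (p ^ t)) c ∈ E).card * (p ^ t) ^ (2 * md s) *
        p ^ t := by ring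
    _ ≤ 2 ^ (2 * md s) * (2 * A + 1) ^ (2 * md s) * E.card * p ^ t :=
        Nat.mul_le_mul_right _ h4
    _ = 2 ^ (2 * md s) * (2 * A + 1) ^ (2 * md s) * (E.card * p ^ t) := by ring
    _ ≤ 2 ^ (2 * md s) * (2 * A + 1) ^ (2 * md s) * (2 * s * (p ^ t) ^ (2 * md s)) :=
        Nat.mul_le_mul_left _ h3
    _ = 2 ^ (2 * md s) * (2 * s) * (2 * A + 1) ^ (2 * md s) * (p ^ t) ^ (2 * md s) := by ring

end Pool.Agent.H36.RQ
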